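import Pool.Agent.N229.PG.Stm

/-! Project PG (problem MP_345ce5_an), leaf P: the peak function `V / (1 + V)`. -/

namespace PG

open Complex Filter Topology Metric Set

lemma p710_norm_pos {v : ℂ} (h : 0 < v.re) : 0 < ‖v‖ :=
  lt_of_lt_of_le h (Complex.re_le_norm _)

lemma p710_lt {v : ℂ} (h : 0 < v.re) : ‖v‖ < ‖1 + v‖ := by
  apply lt_of_pow_lt_pow_left₀ 2 (norm_nonneg _)
  rw [← Complex.normSq_eq_norm_sq, ← Complex.normSq_eq_norm_sq, Complex.normSq_apply,
    Complex.normSq_apply]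
  simp only [Complex.add_re, Complex.one_re, Complex.add_im, Complex.one_im]
  nlinarith

theorem leaf_P : StmP := by
  intro α hα0 _ E hEc hEs V hVd hVre M hM hVV hVE
  classical
  set F : ℂ → ℂ := fun z => if z ∈ E then 1 else 1 - (1 + V z)⁻¹ with hF
  have F_of_mem : ∀ z, z ∈ E → F z = 1 := fun z hz => by simp only [hF, if_pos hz]
  have F_of_notMem : ∀ z, z ∉ E → F z = 1 - (1 + V z)⁻¹ :=
    fun z hz => by simp only [hF, if_neg hz]
  have hM0 : 0 < M := lt_of_lt_of_le one_pos hM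
  have hne : ∀ z : ℂ, ‖z‖ ≤ 1 → z ∉ E → 1 + V z ≠ 0 := fun z hz hE =>
    norm_pos_iff.mp ((p710_norm_pos (hVre z hz hE)).trans (p710_lt (hVre z hz hE)))
  have F_lt : ∀ z : ℂ, ‖z‖ ≤ 1 → z ∉ E → ‖F z‖ < 1 := by
    intro z hz hE
    rw [F_of_notMem z hE]
    have h1 := p710_lt (hVre z hz hE)
    have h2 := p710_norm_pos (hVre z hz hE)
    have h3 := hne z hz hE
    have h4 : 1 - (1 + V z)⁻¹ = V z / (1 + V z) := by
      field_simp
      ring
    rw [h4, norm_div, div_lt_one (h2.trans h1)]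
    exact h1
  have F_sub_mem : ∀ z e : ℂ, ‖z‖ ≤ 1 → z ∉ E → e ∈ E → ‖F z - F e‖ ≤ M * ‖z - e‖ ^ α := by
    intro z e hz hE he
    rw [F_of_notMem z hE, F_of_mem e he]
    have h1 : 1 - (1 + V z)⁻¹ - 1 = -(1 + V z)⁻¹ := by ring
    rw [h1, norm_neg, norm_inv]
    have hV := p710_norm_pos (hVre z hz hE)
    have h3 : ‖1 + V z‖⁻¹ ≤ ‖V z‖⁻¹ := inv_anti₀ hV (p710_lt (hVre z hz hE)).le
    have h2 : ‖V z‖⁻¹ ≤ M * ‖z - e‖ ^ α := by
      rw [inv_le_iff_one_le_mul₀ hV]
      exact hVE z hz hE e he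
    exact h3.trans h2
  have F_holder : ∀ z z' : ℂ, ‖z‖ ≤ 1 → ‖z'‖ ≤ 1 → ‖F z - F z'‖ ≤ M * ‖z - z'‖ ^ α := by
    intro z z' hz hz'
    by_cases hE : z ∈ E
    · by_cases hE' : z' ∈ E
      · rw [F_of_mem z hE, F_of_mem z' hE', sub_self, norm_zero]
        positivity
      · rw [norm_sub_rev, norm_sub_rev z z']
        exact F_sub_mem z' z hz' hE' hE
    · by_cases hE' : z' ∈ E
      · exact F_sub_mem z z' hz hE hE'
      · rw [F_of_notMem z hE, F_of_notMem z' hE']
        have h1 := p710_norm_pos (hVre z hz hE)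
        have h1' := p710_norm_pos (hVre z' hz' hE')
        have h2 := (p710_lt (hVre z hz hE)).le
        have h2' := (p710_lt (hVre z' hz' hE')).le
        have h3 : 1 + V z ≠ 0 := hne z hz hE
        have h3' : 1 + V z' ≠ 0 := hne z' hz' hE'
        have e : 1 - (1 + V z)⁻¹ - (1 - (1 + V z')⁻¹) =
            (V z - V z') / ((1 + V z) * (1 + V z')) := by
          field_simp
          ring
        rw [e, norm_div, norm_mul]
        rw [div_le_iff₀ (mul_pos (h1.trans_le h2) (h1'.trans_le h2'))]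
        refine (hVV z z' hz hz' hE hE').trans ?_
        have h5 : 0 ≤ ‖z - z'‖ ^ α := by positivity
        gcongr
  have notMem : ∀ z : ℂ, ‖z‖ < 1 → z ∉ E := by
    intro z hz h
    have := hEs h
    rw [mem_sphere_zero_iff_norm] at this
    linarith
  refine ⟨hEc, hEs, F, ⟨?_, ?_, M, ?_⟩, F_of_mem, ?_⟩
  · intro z hz
    rw [mem_ball_zero_iff] at hz
    have h1 : DifferentiableAt ℂ (fun w => 1 - (1 + V w)⁻¹) z := by
      have hV := hVd z hz
      have h3 : 1 + V z ≠ 0 := hne z hz.le (notMem z hz)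
      exact (differentiableAt_const _).sub (((differentiableAt_const _).add hV).inv h3)
    refine (h1.congr_of_eventuallyEq ?_).differentiableWithinAt
    have h2 : ball (0 : ℂ) 1 ∈ 𝓝 z := isOpen_ball.mem_nhds (by rwa [mem_ball_zero_iff])
    filter_upwards [h2] with w hw
    rw [mem_ball_zero_iff] at hw
    exact F_of_notMem w (notMem w hw)
  · intro z hz
    rw [mem_closedBall_zero_iff] at hz
    rw [ContinuousWithinAt, tendsto_iff_norm_sub_tendsto_zero]
    have h1 : Tendsto (fun w : ℂ => M * ‖w - z‖ ^ α) (𝓝[closedBall 0 1] z) (𝓝 0) := by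
      have h2 : Continuous (fun w : ℂ => M * ‖w - z‖ ^ α) := by
        have h20 : Continuous (fun w : ℂ => ‖w - z‖) := by fun_prop
        exact continuous_const.mul (h20.rpow_const (fun _ => Or.inr hα0.le))
      have h3 := h2.tendsto z
      simp only [sub_self, norm_zero, Real.zero_rpow hα0.ne', mul_zero] at h3
      exact h3.mono_left nhdsWithin_le_nhds
    refine squeeze_zero' (Eventually.of_forall fun _ => norm_nonneg _) ?_ h1
    filter_upwards [self_mem_nhdsWithin] with w hw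
    rw [mem_closedBall_zero_iff] at hw
    exact F_holder w z hw hz
  · intro z hz w hw
    rw [mem_sphere_zero_iff_norm] at hz hw
    exact F_holder z w hz.le hw.le
  · intro z hz hE
    rw [mem_sphere_zero_iff_norm] at hz
    exact F_lt z hz.le hE

end PG
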